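import Mathlib

/-!
# The average degree bound for the hard-core model

For a finite graph `G` with vertex fugacities `l v > 0` let `μ` be the mean size of the random
independent set.  We prove `μ ≥ (∑ v, l v)² / ∑ v, l v (1 + l v + ∑ u ~ v, l u)`; for `l = t`
constant this is `μ ≥ n t / (1 + (1 + d) t)`, `d` the average degree.

Write `X = |I|`, `A = ∑ l v` over the vertices `v` with `I ∩ N[v] = ∅` and `L = ∑ l v`.
Then `E A = μ`, `E (X (X - A)) = μ` and `E (X - A)² ≤ L`, so `Var X ≥ μ² / L` by
Cauchy-Schwarz.  Applied to the fugacities `s l` this says that `1/μ(s) - 1/(s L)` is a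
nonincreasing function of `s`; its limit at `0` is at most
`∑ v, l v (l v + ∑ u ~ v, l u) / L²`.
-/

namespace Pool.Agent.Results.MP_dc9350_co.AverageDegree

open Finset Classical

universe u

/-- The mean size of a random independent set `I` of `G` drawn with probability proportional to
`∏ v ∈ I, l v`. -/
noncomputable def meanSize {V : Type u} [Fintype V] (G : SimpleGraph V) (l : V → ℝ) : ℝ :=
  (∑ I ∈ (Finset.univ : Finset (Finset V)).filter (fun I : Finset V => G.IsIndepSet (↑I : Set V)),
      ((Finset.card I : ℕ) : ℝ) * ∏ v ∈ I, l v) /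
    (∑ I ∈ (Finset.univ : Finset (Finset V)).filter (fun I : Finset V => G.IsIndepSet (↑I : Set V)),
      ∏ v ∈ I, l v)

variable {V : Type u} [Fintype V] (G : SimpleGraph V) (l : V → ℝ)

/-- the independent sets of `G` -/
noncomputable def indep : Finset (Finset V) :=
  (univ : Finset (Finset V)).filter (fun I : Finset V => G.IsIndepSet (↑I : Set V))

lemma mem_indep' {I : Finset V} : I ∈ indep G ↔ ∀ u ∈ I, ∀ v ∈ I, ¬ G.Adj u v := by
  rw [indep, mem_filter, SimpleGraph.isIndepSet_iff]
  constructor
  · intro h u hu v hv huv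
    exact h.2 (mem_coe.2 hu) (mem_coe.2 hv) huv.ne huv
  · intro h
    refine ⟨mem_univ _, ?_⟩
    intro u hu v hv _ huv
    exact h u (mem_coe.1 hu) v (mem_coe.1 hv) huv

/-- `v` can be added to `I` -/
def Free (v : V) (I : Finset V) : Prop := ∀ u ∈ I, ¬ (u = v ∨ G.Adj v u)

/-- Insertion of a vertex. -/
lemma sum_insert_bij (v : V) (F : Finset V → ℝ) :
    ∑ J ∈ (indep G).filter (fun J => v ∈ J), F J =
      ∑ I ∈ (indep G).filter (fun I => Free G v I), F (insert v I) := by
  symm
  refine Finset.sum_bij' (fun I _ => insert v I) (fun J _ => J.erase v) ?_ ?_ ?_ ?_ ?_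
  · intro I hI
    rw [mem_filter, mem_indep'] at hI
    rw [mem_filter, mem_indep']
    refine ⟨?_, mem_insert_self _ _⟩
    intro a ha b hb hab
    rw [mem_insert] at ha hb
    rcases ha with rfl | ha
    · rcases hb with rfl | hb
      · exact G.irrefl hab
      · exact hI.2 b hb (Or.inr hab)
    · rcases hb with rfl | hb
      · exact hI.2 a ha (Or.inr hab.symm)
      · exact hI.1 a ha b hb hab
  · intro J hJ
    rw [mem_filter, mem_indep'] at hJ
    rw [mem_filter, mem_indep']
    refine ⟨fun a ha b hb => hJ.1 a (mem_of_mem_erase ha) b (mem_of_mem_erase hb), ?_⟩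
    intro u hu h
    rcases h with h | h
    · exact (ne_of_mem_erase hu) h
    · exact hJ.1 v hJ.2 u (mem_of_mem_erase hu) h
  · intro I hI
    rw [mem_filter] at hI
    exact erase_insert (fun h => hI.2 v h (Or.inl rfl))
  · intro J hJ
    rw [mem_filter] at hJ
    exact insert_erase hJ.2
  · intro I _
    rfl

/-- unnormalised expectation -/
noncomputable def ex (F : Finset V → ℝ) : ℝ := ∑ I ∈ indep G, (∏ v ∈ I, l v) * F I

lemma ex_add (F H : Finset V → ℝ) : ex G l (fun I => F I + H I) = ex G l F + ex G l H := by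
  simp [ex, mul_add, sum_add_distrib]

lemma ex_sub (F H : Finset V → ℝ) : ex G l (fun I => F I - H I) = ex G l F - ex G l H := by
  simp [ex, mul_sub, sum_sub_distrib]

lemma ex_smul (c : ℝ) (F : Finset V → ℝ) : ex G l (fun I => c * F I) = c * ex G l F := by
  simp only [ex, mul_sum]
  exact sum_congr rfl fun _ _ => by ring

lemma ex_mono (hl : ∀ v, 0 < l v) {F H : Finset V → ℝ} (h : ∀ I ∈ indep G, F I ≤ H I) :
    ex G l F ≤ ex G l H := by
  refine sum_le_sum fun I hI => ?_
  exact mul_le_mul_of_nonneg_left (h I hI) (prod_nonneg fun v _ => (hl v).le)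

lemma ex_nonneg (hl : ∀ v, 0 < l v) {F : Finset V → ℝ} (h : ∀ I ∈ indep G, 0 ≤ F I) :
    0 ≤ ex G l F := by
  refine sum_nonneg fun I hI => ?_
  exact mul_nonneg (prod_nonneg fun v _ => (hl v).le) (h I hI)

/-- The Mecke formula. -/
lemma mecke (v : V) (F : Finset V → ℝ) :
    ex G l (fun J => if v ∈ J then F (J.erase v) else 0) =
      l v * ex G l (fun I => if Free G v I then F I else 0) := by
  have h1 : ex G l (fun J => if v ∈ J then F (J.erase v) else 0) =
      ∑ J ∈ (indep G).filter (fun J => v ∈ J), (∏ u ∈ J, l u) * F (J.erase v) := by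
    rw [ex, sum_filter]
    exact sum_congr rfl fun J _ => by split_ifs <;> simp
  have h2 : ex G l (fun I => if Free G v I then F I else 0) =
      ∑ I ∈ (indep G).filter (fun I => Free G v I), (∏ u ∈ I, l u) * F I := by
    rw [ex, sum_filter]
    exact sum_congr rfl fun J _ => by split_ifs <;> simp
  rw [h1, h2, sum_insert_bij, mul_sum]
  refine sum_congr rfl fun I hI => ?_
  rw [mem_filter] at hI
  have hv : v ∉ I := fun h => hI.2 v h (Or.inl rfl)
  rw [prod_insert hv, erase_insert hv]
  ring

/-- total fugacity of the vertices which can be added -/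
noncomputable def A (I : Finset V) : ℝ := ∑ v, if Free G v I then l v else 0

lemma ex_sum {ι : Type*} (s : Finset ι) (F : ι → Finset V → ℝ) :
    ex G l (fun I => ∑ i ∈ s, F i I) = ∑ i ∈ s, ex G l (F i) := by
  simp only [ex, mul_sum]
  rw [sum_comm]

lemma sum_mem_ite (I : Finset V) (c : ℝ) : (∑ v, if v ∈ I then c else 0) = (I.card : ℝ) * c := by
  rw [← sum_filter]
  simp

/-- `E (A H) = E ∑ v ∈ J, H (J - v)` -/
lemma ex_A_mul (H : Finset V → ℝ) :
    ex G l (fun I => A G l I * H I) =
      ex G l (fun J => ∑ v, if v ∈ J then H (J.erase v) else 0) := by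
  rw [ex_sum]
  have h : (fun I => A G l I * H I) =
      fun I => ∑ v, l v * (if Free G v I then H I else 0) := by
    funext I
    rw [A, sum_mul]
    exact sum_congr rfl fun v _ => by split_ifs <;> simp
  rw [h, ex_sum]
  refine sum_congr rfl fun v _ => ?_
  rw [ex_smul, mecke]

lemma ex_A : ex G l (A G l) = ex G l (fun I => (I.card : ℝ)) := by
  have h := ex_A_mul G l (fun _ => 1)
  simp only [mul_one] at h
  rw [show ex G l (A G l) = ex G l (fun I => A G l I) from rfl, h]
  congr 1
  funext J
  rw [sum_mem_ite]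
  ring

lemma ex_card_A : ex G l (fun I => A G l I * (I.card : ℝ)) =
    ex G l (fun I => (I.card : ℝ) ^ 2) - ex G l (fun I => (I.card : ℝ)) := by
  rw [ex_A_mul, ← ex_sub]
  congr 1
  funext J
  have : ∀ v, (if v ∈ J then ((J.erase v).card : ℝ) else 0) =
      if v ∈ J then ((J.card : ℝ) - 1) else 0 := by
    intro v
    split_ifs with h
    · rw [card_erase_of_mem h, Nat.cast_sub (card_pos.2 ⟨v, h⟩)]
      simp
    · rfl
  simp_rw [this]
  rw [sum_mem_ite]
  ring

/-- For a fixed vertex `u`: the number of `v ∈ J` such that `u` is free for `J - v` is at most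
`|J|` if `u` is free for `J` and at most one otherwise. -/
lemma free_erase (u : V) (J : Finset V) :
    (∑ v, if v ∈ J then (if Free G u (J.erase v) then l u else 0) else 0) ≤
      (J.card : ℝ) * (if Free G u J then l u else 0) + (if Free G u J then 0 else l u) ∨
      l u < 0 := by
  by_cases hneg : l u < 0
  · exact Or.inr hneg
  left
  push Not at hneg
  by_cases hf : Free G u J
  · have : ∀ v, (if v ∈ J then (if Free G u (J.erase v) then l u else 0) else 0) =
        if v ∈ J then l u else 0 := by
      intro v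
      have : Free G u (J.erase v) := fun w hw => hf w (mem_of_mem_erase hw)
      simp [this]
    simp_rw [this]
    rw [sum_mem_ite]
    simp [hf]
  · simp only [hf, if_false, mul_zero, zero_add]
    obtain ⟨w, hw, hwu⟩ : ∃ w ∈ J, (w = u ∨ G.Adj u w) := by
      by_contra hcon
      push Not at hcon
      exact hf (fun w hw h => by
        rcases h with h | h
        · exact (hcon w hw).1 h
        · exact (hcon w hw).2 h)
    calc (∑ v, if v ∈ J then (if Free G u (J.erase v) then l u else 0) else 0)
        ≤ ∑ v, if v = w then l u else 0 := by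
          refine sum_le_sum fun v _ => ?_
          by_cases hvw : v = w
          · rw [if_pos hvw]
            split_ifs <;> linarith
          · rw [if_neg hvw]
            have : ¬ Free G u (J.erase v) := by
              intro h
              exact h w (mem_erase.2 ⟨fun h' => hvw h'.symm, hw⟩) hwu
            simp [this]
      _ = l u := by simp

lemma ex_A_sq (hl : ∀ v, 0 < l v) : ex G l (fun I => A G l I * A G l I) ≤
    ex G l (fun I => A G l I * (I.card : ℝ)) + ((∑ v, l v) * ex G l (fun _ => 1)
      - ex G l (A G l)) := by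
  rw [ex_A_mul]
  have h1 : (∑ v, l v) * ex G l (fun _ => 1) - ex G l (A G l) =
      ex G l (fun I => ∑ u, if Free G u I then 0 else l u) := by
    rw [← ex_smul, ← ex_sub]
    congr 1
    funext I
    rw [mul_one, A, ← sum_sub_distrib]
    exact sum_congr rfl fun u _ => by split_ifs <;> simp
  rw [h1, ← ex_add]
  refine ex_mono G l hl fun J _ => ?_
  simp only [A]
  have h2 : (∑ v, if v ∈ J then (∑ u, if Free G u (J.erase v) then l u else 0) else 0) =
      ∑ u, ∑ v, if v ∈ J then (if Free G u (J.erase v) then l u else 0) else 0 := by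
    rw [sum_comm]
    refine sum_congr rfl fun v _ => ?_
    split_ifs <;> simp
  rw [h2, sum_mul, ← sum_add_distrib]
  refine sum_le_sum fun u _ => ?_
  rcases free_erase G l u J with h | h
  · linarith
  · exact absurd h (not_lt.2 (hl u).le)

/-- The variance bound `Var X ≥ μ² / L`, multiplied out. -/
lemma variance_bound (hl : ∀ v, 0 < l v) :
    (ex G l (fun I => (I.card : ℝ))) ^ 2 ≤
      (∑ v, l v) * (ex G l (fun _ => 1) * ex G l (fun I => (I.card : ℝ) ^ 2)
        - (ex G l (fun I => (I.card : ℝ))) ^ 2) := by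
  set Z := ex G l (fun _ => 1) with hZ
  set M := ex G l (fun I => (I.card : ℝ)) with hM
  set N := ex G l (fun I => (I.card : ℝ) ^ 2) with hN
  set L := ∑ v, l v with hL
  have hLnn : 0 ≤ L := sum_nonneg fun v _ => (hl v).le
  have hZpos : 0 < Z := by
    have hempty : (∅ : Finset V) ∈ indep G := by rw [mem_indep']; simp
    rw [hZ, ex]
    refine sum_pos (fun I _ => by
      rw [mul_one]; exact prod_pos fun v _ => hl v) ⟨_, hempty⟩
  have hB2 : ex G l (fun I => ((I.card : ℝ) - A G l I) ^ 2) ≤ L * Z := by
    have e1 : ex G l (fun I => ((I.card : ℝ) - A G l I) ^ 2) =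
        N - 2 * ex G l (fun I => A G l I * (I.card : ℝ)) +
          ex G l (fun I => A G l I * A G l I) := by
      rw [hN, ← ex_smul, ← ex_sub, ← ex_add]
      congr 1
      funext I
      ring
    have e2 := ex_A_sq G l hl
    have e3 := ex_card_A G l
    have e4 := ex_A G l
    rw [e1]
    rw [← hZ, ← hL] at e2
    rw [← hM, ← hN] at e3
    rw [← hM] at e4
    linarith
  have hXB : ex G l (fun I => (I.card : ℝ) * ((I.card : ℝ) - A G l I)) = M := by
    have e1 : ex G l (fun I => (I.card : ℝ) * ((I.card : ℝ) - A G l I)) =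
        N - ex G l (fun I => A G l I * (I.card : ℝ)) := by
      rw [hN, ← ex_sub]
      congr 1
      funext I
      ring
    rw [e1, ex_card_A]
    ring
  have hB : ex G l (fun I => (I.card : ℝ) - A G l I) = 0 := by
    rw [ex_sub]
    have e4 := ex_A G l
    rw [show ex G l (fun I => A G l I) = ex G l (A G l) from rfl, e4]
    ring
  -- the quadratic form
  have key : ∀ x y : ℝ, 0 ≤ N - 2 * y * M + y ^ 2 * Z - 2 * x * M + x ^ 2 * (L * Z) := by
    intro x y
    have h0 : 0 ≤ ex G l (fun I => ((I.card : ℝ) - y - x * ((I.card : ℝ) - A G l I)) ^ 2) :=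
      ex_nonneg G l hl fun I _ => sq_nonneg _
    have e1 : ex G l (fun I => ((I.card : ℝ) - y - x * ((I.card : ℝ) - A G l I)) ^ 2) =
        ex G l (fun I => (I.card : ℝ) ^ 2) - 2 * y * ex G l (fun I => (I.card : ℝ))
          + y ^ 2 * ex G l (fun _ => 1)
          - 2 * x * ex G l (fun I => (I.card : ℝ) * ((I.card : ℝ) - A G l I))
          + 2 * x * y * ex G l (fun I => (I.card : ℝ) - A G l I)
          + x ^ 2 * ex G l (fun I => ((I.card : ℝ) - A G l I) ^ 2) := by
      rw [← ex_smul, ← ex_smul, ← ex_smul, ← ex_smul, ← ex_smul, ← ex_sub, ← ex_add,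
        ← ex_sub, ← ex_add, ← ex_add]
      congr 1
      funext I
      ring
    rw [e1, hXB, hB, ← hN, ← hM, ← hZ] at h0
    nlinarith [sq_nonneg x]
  rcases hLnn.eq_or_lt with hL0 | hLpos
  · -- no vertices
    have hV : IsEmpty V := by
      by_contra hne
      rw [not_isEmpty_iff] at hne
      obtain ⟨v⟩ := hne
      have : 0 < L := sum_pos (fun v _ => hl v) ⟨v, mem_univ v⟩
      linarith
    have : M = 0 := by
      rw [hM, ex]
      refine sum_eq_zero fun I _ => ?_
      have : I = ∅ := by
        ext v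
        exact (hV.false v).elim
      rw [this]
      simp
    rw [this, ← hL0]
    simp
  · have h1 := key (M / (L * Z)) (M / Z)
    have e2 : N - 2 * (M / Z) * M + (M / Z) ^ 2 * Z - 2 * (M / (L * Z)) * M
        + (M / (L * Z)) ^ 2 * (L * Z) = (L * (Z * N - M ^ 2) - M ^ 2) / (L * Z) := by
      field_simp
      ring
    rw [e2] at h1
    have h2 : 0 < L * Z := mul_pos hLpos hZpos
    have h3 : 0 ≤ L * (Z * N - M ^ 2) - M ^ 2 := by
      by_contra hcon
      push Not at hcon
      have := div_neg_of_neg_of_pos hcon h2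
      linarith
    linarith

/-- the functions of the scaling parameter -/
noncomputable def Zs (s : ℝ) : ℝ := ex G l (fun I => s ^ I.card)
noncomputable def Ms (s : ℝ) : ℝ := ex G l (fun I => (I.card : ℝ) * s ^ I.card)
noncomputable def Ns (s : ℝ) : ℝ := ex G l (fun I => (I.card : ℝ) ^ 2 * s ^ I.card)

lemma ex_scale (s : ℝ) (F : Finset V → ℝ) :
    ex G (fun v => s * l v) F = ex G l (fun I => F I * s ^ I.card) := by
  simp only [ex]
  refine sum_congr rfl fun I _ => ?_
  rw [prod_mul_distrib, prod_const]
  ring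

lemma hasDerivAt_ex (c : Finset V → ℝ) (s : ℝ) :
    HasDerivAt (fun s => ex G l (fun I => c I * s ^ I.card))
      (ex G l (fun I => c I * ((I.card : ℝ) * s ^ (I.card - 1)))) s := by
  simp only [ex]
  refine HasDerivAt.fun_sum fun I _ => ?_
  exact ((hasDerivAt_pow I.card s).const_mul (c I)).const_mul _

lemma deriv_shift (c : Finset V → ℝ) {s : ℝ} (hs : s ≠ 0) :
    ex G l (fun I => c I * ((I.card : ℝ) * s ^ (I.card - 1))) =
      ex G l (fun I => (c I * (I.card : ℝ)) * s ^ I.card) / s := by
  rw [eq_div_iff hs, mul_comm, ← ex_smul]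
  congr 1
  funext I
  rcases Nat.eq_zero_or_pos I.card with h | h
  · simp [h]
  · have : s ^ I.card = s ^ (I.card - 1) * s := by
      rw [← pow_succ]
      congr 1
      omega
    rw [this]
    ring

lemma Zs_one : Zs G l 1 = ex G l (fun _ => 1) := by simp [Zs]
lemma Ms_one : Ms G l 1 = ex G l (fun I => (I.card : ℝ)) := by simp [Ms]

lemma Zs_pos (hl : ∀ v, 0 < l v) {s : ℝ} (hs : 0 < s) : 0 < Zs G l s := by
  have hempty : (∅ : Finset V) ∈ indep G := by rw [mem_indep']; simp
  rw [Zs, ex]
  exact sum_pos (fun I _ => mul_pos (prod_pos fun v _ => hl v) (pow_pos hs _)) ⟨_, hempty⟩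

lemma single_indep (v : V) : ({v} : Finset V) ∈ indep G := by
  rw [mem_indep']
  simp

lemma Ms_pos (hl : ∀ v, 0 < l v) [Nonempty V] {s : ℝ} (hs : 0 < s) : 0 < Ms G l s := by
  obtain ⟨v⟩ := ‹Nonempty V›
  rw [Ms, ex]
  refine sum_pos' (fun I _ => ?_) ⟨{v}, single_indep G v, ?_⟩
  · exact mul_nonneg (prod_nonneg fun v _ => (hl v).le)
      (mul_nonneg (Nat.cast_nonneg _) (pow_nonneg hs.le _))
  · exact mul_pos (prod_pos fun v _ => hl v) (mul_pos (by simp) (pow_pos hs _))

lemma hasDerivAt_Zs {s : ℝ} (hs : s ≠ 0) : HasDerivAt (Zs G l) (Ms G l s / s) s := by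
  have h := hasDerivAt_ex G l (fun _ => 1) s
  rw [deriv_shift G l _ hs] at h
  have e1 : (fun s => ex G l (fun I => (1 : ℝ) * s ^ I.card)) = Zs G l := by
    funext s
    simp [Zs]
  have e2 : ex G l (fun I => ((1 : ℝ) * (I.card : ℝ)) * s ^ I.card) = Ms G l s := by
    simp [Ms]
  rw [e1, e2] at h
  exact h

lemma hasDerivAt_Ms {s : ℝ} (hs : s ≠ 0) : HasDerivAt (Ms G l) (Ns G l s / s) s := by
  have h := hasDerivAt_ex G l (fun I => (I.card : ℝ)) s
  rw [deriv_shift G l _ hs] at h
  have e2 : ex G l (fun I => ((I.card : ℝ) * (I.card : ℝ)) * s ^ I.card) = Ns G l s := by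
    rw [Ns]
    congr 1
    funext I
    ring
  rw [e2] at h
  exact h

lemma variance_scaled (hl : ∀ v, 0 < l v) {s : ℝ} (hs : 0 < s) :
    (Ms G l s) ^ 2 ≤ (s * ∑ v, l v) * (Zs G l s * Ns G l s - (Ms G l s) ^ 2) := by
  have h := variance_bound G (fun v => s * l v) (fun v => mul_pos hs (hl v))
  rw [ex_scale, ex_scale, ex_scale, ← mul_sum] at h
  simpa [Zs, Ms, Ns] using h

/-- `1/μ(s) - 1/(s L)` -/
noncomputable def hh (s : ℝ) : ℝ := Zs G l s / Ms G l s - 1 / (s * ∑ v, l v)

lemma hh_antitone (hl : ∀ v, 0 < l v) [Nonempty V] : AntitoneOn (hh G l) (Set.Ioi 0) := by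
  have hL : 0 < ∑ v, l v := sum_pos (fun v _ => hl v) univ_nonempty
  have hd : ∀ s ∈ Set.Ioi (0 : ℝ), HasDerivAt (hh G l)
      ((Ms G l s / s * Ms G l s - Zs G l s * (Ns G l s / s)) / (Ms G l s) ^ 2
        - (-(1 / (s ^ 2 * ∑ v, l v)))) s := by
    intro s hs
    have hs' : (0 : ℝ) < s := hs
    have h1 := (hasDerivAt_Zs G l hs'.ne').div (hasDerivAt_Ms G l hs'.ne')
      (Ms_pos G l hl hs').ne'
    have h2 : HasDerivAt (fun s : ℝ => 1 / (s * ∑ v, l v)) (-(1 / (s ^ 2 * ∑ v, l v))) s := by
      have h3 := (hasDerivAt_inv hs'.ne').div_const (∑ v, l v)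
      refine (h3.congr_deriv ?_).congr_of_eventuallyEq (Filter.Eventually.of_forall ?_)
      · field_simp
      · intro x
        simp only [one_div, mul_inv]
        rfl
    exact h1.sub h2
  refine antitoneOn_of_deriv_nonpos (convex_Ioi 0) ?_ ?_ ?_
  · intro s hs
    exact (hd s hs).continuousAt.continuousWithinAt
  · intro s hs
    rw [interior_Ioi] at hs
    exact (hd s hs).differentiableAt.differentiableWithinAt
  · intro s hs
    rw [interior_Ioi] at hs
    rw [(hd s hs).deriv]
    have hs' : (0 : ℝ) < s := hs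
    have hv := variance_scaled G l hl hs'
    have hM := Ms_pos G l hl hs'
    have e : (Ms G l s / s * Ms G l s - Zs G l s * (Ns G l s / s)) / (Ms G l s) ^ 2
        - (-(1 / (s ^ 2 * ∑ v, l v))) =
        ((Ms G l s) ^ 2 - (s * ∑ v, l v) * (Zs G l s * Ns G l s - (Ms G l s) ^ 2)) /
          ((Ms G l s) ^ 2 * (s ^ 2 * ∑ v, l v)) := by
      field_simp
      ring
    rw [e]
    exact div_nonpos_of_nonpos_of_nonneg (by linarith) (by positivity)

/-- the fugacity-weighted degree sum -/
noncomputable def T : ℝ := ∑ v, l v * ∑ u, if (u = v ∨ G.Adj v u) then l u else 0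

lemma small_bound (hl : ∀ v, 0 < l v) {s : ℝ} (hs : 0 < s) :
    (∑ v, l v) * Zs G l s - ex G l (fun I => A G l I * s ^ I.card) ≤ s * (T G l * Zs G l s) := by
  have h1 : (∑ v, l v) * Zs G l s - ex G l (fun I => A G l I * s ^ I.card) =
      ∑ v, l v * ex G l (fun I => (if Free G v I then 0 else 1) * s ^ I.card) := by
    rw [Zs, ← ex_smul, ← ex_sub]
    simp_rw [← ex_smul]
    rw [← ex_sum]
    congr 1
    funext I
    rw [A, sum_mul, sum_mul, ← sum_sub_distrib]
    exact sum_congr rfl fun v _ => by split_ifs <;> ring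
  rw [h1, T, sum_mul, mul_sum]
  refine sum_le_sum fun v _ => ?_
  rw [mul_assoc, mul_left_comm]
  refine mul_le_mul_of_nonneg_left ?_ (hl v).le
  rw [sum_mul, mul_sum]
  -- union bound
  have h2 : ex G l (fun I => (if Free G v I then 0 else 1) * s ^ I.card) ≤
      ex G l (fun I => ∑ u, if (u = v ∨ G.Adj v u) then (if u ∈ I then s ^ I.card else 0)
        else 0) := by
    refine ex_mono G l hl fun I _ => ?_
    by_cases hf : Free G v I
    · rw [if_pos hf, zero_mul]
      exact sum_nonneg fun u _ => by
        split_ifs <;> first | exact (pow_nonneg hs.le _) | exact le_rfl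
    · rw [if_neg hf, one_mul]
      obtain ⟨w, hw, hwv⟩ : ∃ w ∈ I, (w = v ∨ G.Adj v w) := by
        by_contra hcon
        push Not at hcon
        exact hf (fun w hw h => by
          rcases h with h | h
          · exact (hcon w hw).1 h
          · exact (hcon w hw).2 h)
      have h5 := single_le_sum (f := fun u => if (u = v ∨ G.Adj v u) then
          (if u ∈ I then s ^ I.card else 0) else 0) (fun u _ => by
        split_ifs <;> first | exact (pow_nonneg hs.le _) | exact le_rfl) (mem_univ w)
      simpa only [hw, hwv, if_true] using h5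
  refine h2.trans ?_
  rw [ex_sum]
  refine sum_le_sum fun u _ => ?_
  by_cases huv : (u = v ∨ G.Adj v u)
  · simp only [huv, if_true]
    have h3 : ex G l (fun I => if u ∈ I then s ^ I.card else 0) =
        l u * ex G l (fun I => if Free G u I then s * s ^ I.card else 0) := by
      rw [← mecke G l u (fun I => s * s ^ I.card)]
      congr 1
      funext J
      by_cases h : u ∈ J
      · rw [if_pos h, if_pos h, card_erase_of_mem h, ← pow_succ']
        congr 1
        have := card_pos.2 ⟨u, h⟩
        omega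
      · rw [if_neg h, if_neg h]
    rw [h3]
    have h4 : ex G l (fun I => if Free G u I then s * s ^ I.card else 0) ≤ s * Zs G l s := by
      rw [Zs, ← ex_smul]
      refine ex_mono G l hl fun I _ => ?_
      split_ifs
      · exact le_rfl
      · positivity
    calc l u * ex G l (fun I => if Free G u I then s * s ^ I.card else 0)
        ≤ l u * (s * Zs G l s) := mul_le_mul_of_nonneg_left h4 (hl u).le
      _ = s * (l u * Zs G l s) := by ring
  · simp only [huv, if_false]
    simp [ex]

lemma Ms_eq (s : ℝ) :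
    Ms G l s = s * ex G l (fun I => A G l I * s ^ I.card) := by
  rw [← ex_smul]
  have h : (fun I => s * (A G l I * s ^ I.card)) = fun I => A G l I * (s * s ^ I.card) := by
    funext I
    ring
  rw [h, ex_A_mul, Ms]
  congr 1
  funext J
  have : ∀ v, (if v ∈ J then s * s ^ (J.erase v).card else 0) =
      if v ∈ J then s ^ J.card else 0 := by
    intro v
    by_cases h : v ∈ J
    · rw [if_pos h, if_pos h, card_erase_of_mem h, ← pow_succ']
      congr 1
      have := card_pos.2 ⟨v, h⟩
      omega
    · rw [if_neg h, if_neg h]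
  simp_rw [this]
  rw [sum_mem_ite]

/-- At `s → 0`. -/
lemma limit_bound (hl : ∀ v, 0 < l v) [Nonempty V] {s : ℝ} (hs : 0 < s) :
    hh G l s ≤ T G l * Zs G l s / ((∑ v, l v) * ex G l (fun I => A G l I * s ^ I.card)) := by
  have hL : 0 < ∑ v, l v := sum_pos (fun v _ => hl v) univ_nonempty
  have hM := Ms_pos G l hl hs
  have hE : 0 < ex G l (fun I => A G l I * s ^ I.card) := by
    have := Ms_eq G l s
    rw [this] at hM
    exact (mul_pos_iff_of_pos_left hs).1 hM
  have h := small_bound G l hl hs
  rw [hh, Ms_eq G l s]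
  set E := ex G l (fun I => A G l I * s ^ I.card)
  set L := ∑ v, l v
  have e : Zs G l s / (s * E) - 1 / (s * L) = (L * Zs G l s - E) / (s * (L * E)) := by
    field_simp
  rw [e, div_le_div_iff₀ (by positivity) (by positivity)]
  have h2 : 0 < L * E := mul_pos hL hE
  nlinarith

lemma Zs_continuous : Continuous (Zs G l) := by
  unfold Zs ex
  fun_prop

lemma Ex_continuous : Continuous (fun s : ℝ => ex G l (fun I => A G l I * s ^ I.card)) := by
  unfold ex
  fun_prop

lemma ex_zero_pow (F : Finset V → ℝ) : ex G l (fun I => F I * (0 : ℝ) ^ I.card) = F ∅ := by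
  rw [ex, sum_eq_single ∅]
  · simp
  · intro I _ hI
    have : I.card ≠ 0 := by
      intro h
      exact hI (card_eq_zero.1 h)
    rw [zero_pow this]
    simp
  · intro h
    exact absurd (by rw [mem_indep']; simp) h

lemma hh_one_le (hl : ∀ v, 0 < l v) [Nonempty V] : hh G l 1 ≤ T G l / (∑ v, l v) ^ 2 := by
  have hL : 0 < ∑ v, l v := sum_pos (fun v _ => hl v) univ_nonempty
  have hlim : Filter.Tendsto
      (fun s : ℝ => T G l * Zs G l s / ((∑ v, l v) * ex G l (fun I => A G l I * s ^ I.card)))
      (nhdsWithin 0 (Set.Ioi 0)) (nhds (T G l / (∑ v, l v) ^ 2)) := by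
    have hA : A G l ∅ = ∑ v, l v := by
      rw [A]
      refine sum_congr rfl fun v _ => ?_
      rw [if_pos]
      intro u hu
      exact absurd hu (notMem_empty u)
    have h0 : ex G l (fun I => A G l I * (0 : ℝ) ^ I.card) = ∑ v, l v := by
      rw [ex_zero_pow, hA]
    have hZ0 : Zs G l 0 = 1 := by
      have := ex_zero_pow G l (fun _ => 1)
      rw [Zs]
      simpa using this
    have hc : ContinuousAt (fun s : ℝ => T G l * Zs G l s /
        ((∑ v, l v) * ex G l (fun I => A G l I * s ^ I.card))) 0 := by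
      refine ContinuousAt.div ?_ ?_ ?_
      · exact ((Zs_continuous G l).continuousAt).const_mul _ |>.congr
          (Filter.Eventually.of_forall fun _ => rfl)
      · exact ((Ex_continuous G l).continuousAt).const_mul _ |>.congr
          (Filter.Eventually.of_forall fun _ => rfl)
      · rw [h0]
        positivity
    have h1 := hc.tendsto
    rw [h0, hZ0, mul_one, ← sq] at h1
    exact h1.mono_left nhdsWithin_le_nhds
  refine ge_of_tendsto hlim ?_
  have hev : ∀ᶠ s : ℝ in nhdsWithin 0 (Set.Ioi 0), s ∈ Set.Ioo (0 : ℝ) 1 :=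
    Ioo_mem_nhdsGT one_pos
  filter_upwards [hev] with s hs
  refine le_trans ?_ (limit_bound G l hl hs.1)
  exact hh_antitone G l hl (Set.mem_Ioi.2 hs.1) (Set.mem_Ioi.2 one_pos) hs.2.le

lemma T_eq : T G l = ∑ v, l v * (l v + ∑ u ∈ G.neighborFinset v, l u) := by
  rw [T]
  refine sum_congr rfl fun v _ => ?_
  congr 1
  have h : ∀ u, (if (u = v ∨ G.Adj v u) then l u else 0) =
      (if u = v then l u else 0) + if G.Adj v u then l u else 0 := by
    intro u
    by_cases h1 : u = v
    · subst h1
      simp
    · simp [h1]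
  simp_rw [h]
  rw [sum_add_distrib]
  congr 1
  · simp
  · rw [← sum_filter]
    refine sum_congr ?_ fun _ _ => rfl
    ext u
    simp

/-- **The average degree bound for the hard-core model.**  For every finite graph and all vertex
fugacities `l v > 0` the mean size of the random independent set is at least
`(∑ v, l v)² / ∑ v, l v (1 + l v + ∑ u ~ v, l u)`. -/
theorem result : ∀ (V : Type u) [Fintype V] (G : SimpleGraph V) (l : V → ℝ), (∀ v, 0 < l v) →
    (∑ v, l v) ^ 2 / (∑ v, l v * (1 + l v + ∑ u ∈ G.neighborFinset v, l u)) ≤ meanSize G l := by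
  intro V _ G l hl
  rcases isEmpty_or_nonempty V with hV | hV
  · simp [meanSize, Finset.univ_eq_empty]
    rw [sum_eq_zero]
    · simp
    · intro I _
      have : I = ∅ := Finset.eq_empty_of_isEmpty I
      rw [this]
      simp
  · have hL : 0 < ∑ v, l v := sum_pos (fun v _ => hl v) univ_nonempty
    have h1 := hh_one_le G l hl
    have hM : 0 < Ms G l 1 := Ms_pos G l hl one_pos
    have hZ : 0 < Zs G l 1 := Zs_pos G l hl one_pos
    have hmean : meanSize G l = Ms G l 1 / Zs G l 1 := by
      rw [meanSize, Ms, Zs, ex, ex, indep]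
      congr 1
      · exact sum_congr rfl fun I _ => by ring
      · exact sum_congr rfl fun I _ => by ring
    have hden : (∑ v, l v * (1 + l v + ∑ u ∈ G.neighborFinset v, l u)) = (∑ v, l v) + T G l := by
      rw [T_eq, ← sum_add_distrib]
      exact sum_congr rfl fun v _ => by ring
    have hT : 0 ≤ T G l := by
      rw [T_eq]
      exact sum_nonneg fun v _ => mul_nonneg (hl v).le
        (add_nonneg (hl v).le (sum_nonneg fun u _ => (hl u).le))
    rw [hmean, hden, div_le_div_iff₀ (by positivity) hZ]
    rw [hh, one_mul] at h1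
    have h2 : Zs G l 1 / Ms G l 1 ≤ (T G l + ∑ v, l v) / (∑ v, l v) ^ 2 := by
      have : (T G l + ∑ v, l v) / (∑ v, l v) ^ 2 =
          T G l / (∑ v, l v) ^ 2 + 1 / (∑ v, l v) := by
        field_simp
      linarith
    rw [div_le_div_iff₀ hM (by positivity)] at h2
    linarith

end Pool.Agent.Results.MP_dc9350_co.AverageDegree
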