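import Mathlib

/-!
# A Caro–Wei type bound for the hard-core model under a local degree condition

For a finite graph `G` and fugacity `t > 0` put `g v = 1 / (1 + (deg v + 1) t)`.
We prove the exact identity
`Z (μ - ∑ v, t g v) = t ∑ b, ∑ I independent with |I ∩ N[b]| ≥ 2, t^|I| (∑ c ∈ I ∩ N[b], g c - g b)`
and deduce that `μ ≥ ∑ v, t g v` whenever `g a + g c ≥ g b` for every vertex `b` and every two
distinct non-adjacent neighbours `a, c` of `b`.
-/

namespace Pool.Agent.Results.MP_dc9350_co.CherryCondition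

open Finset Classical

universe u

/-- The inequality of Q1 for the graph `G` at fugacity `t`:
`∑ v, t / (1 + (deg v + 1) t)` is at most the mean size of a random independent set `I` drawn with
probability proportional to `t ^ |I|`. -/
def CaroWeiHardCore {V : Type u} [Fintype V] (G : SimpleGraph V) (t : ℝ) : Prop :=
  (∑ v : V, t / (1 + ((G.degree v : ℝ) + 1) * t)) ≤
    (∑ I ∈ (Finset.univ : Finset (Finset V)).filter (fun I : Finset V => G.IsIndepSet (↑I : Set V)),
      ((Finset.card I : ℕ) : ℝ) * t ^ (Finset.card I)) /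
    (∑ I ∈ (Finset.univ : Finset (Finset V)).filter (fun I : Finset V => G.IsIndepSet (↑I : Set V)),
      t ^ (Finset.card I))

variable {V : Type*} [Fintype V] (G : SimpleGraph V) (t : ℝ)

/-- the independent sets of `G` -/
noncomputable def indep : Finset (Finset V) :=
  (univ : Finset (Finset V)).filter (fun I : Finset V => G.IsIndepSet (↑I : Set V))

lemma mem_indep {I : Finset V} : I ∈ indep G ↔ G.IsIndepSet (↑I : Set V) := by
  simp [indep]

lemma mem_indep' {I : Finset V} : I ∈ indep G ↔ ∀ u ∈ I, ∀ v ∈ I, ¬ G.Adj u v := by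
  rw [mem_indep, SimpleGraph.isIndepSet_iff]
  constructor
  · intro h u hu v hv huv
    exact h (mem_coe.2 hu) (mem_coe.2 hv) huv.ne huv
  · intro h u hu v hv _ huv
    exact h u (mem_coe.1 hu) v (mem_coe.1 hv) huv

/-- the part of `I` in the closed neighbourhood of `b` -/
noncomputable def cn (b : V) (I : Finset V) : Finset V := I.filter (fun u => u = b ∨ G.Adj b u)

lemma mem_cn {b u : V} {I : Finset V} : u ∈ cn G b I ↔ u ∈ I ∧ (u = b ∨ G.Adj b u) := by
  simp [cn]

lemma cn_eq_empty {b : V} {I : Finset V} :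
    cn G b I = ∅ ↔ ∀ u ∈ I, ¬ (u = b ∨ G.Adj b u) := by
  simp [cn, filter_eq_empty_iff]

/-- Insertion of a vertex. -/
lemma sum_insert_bij (v : V) (F : Finset V → ℝ) :
    ∑ J ∈ (indep G).filter (fun J => v ∈ J), F J =
      ∑ I ∈ (indep G).filter (fun I => cn G v I = ∅), F (insert v I) := by
  symm
  refine Finset.sum_bij' (fun I _ => insert v I) (fun J _ => J.erase v) ?_ ?_ ?_ ?_ ?_
  · intro I hI
    rw [mem_filter, mem_indep', cn_eq_empty] at hI
    rw [mem_filter, mem_indep']
    refine ⟨?_, mem_insert_self _ _⟩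
    intro a ha b hb hab
    rw [mem_insert] at ha hb
    rcases ha with rfl | ha
    · rcases hb with rfl | hb
      · exact G.irrefl hab
      · exact hI.2 b hb (Or.inr hab)
    · rcases hb with rfl | hb
      · exact hI.2 a ha (Or.inr hab.symm)
      · exact hI.1 a ha b hb hab
  · intro J hJ
    rw [mem_filter, mem_indep'] at hJ
    rw [mem_filter, mem_indep', cn_eq_empty]
    refine ⟨fun a ha b hb => hJ.1 a (mem_of_mem_erase ha) b (mem_of_mem_erase hb), ?_⟩
    intro u hu h
    rcases h with h | h
    · exact (ne_of_mem_erase hu) h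
    · exact hJ.1 v hJ.2 u (mem_of_mem_erase hu) h
  · intro I hI
    rw [mem_filter, cn_eq_empty] at hI
    exact erase_insert (fun h => hI.2 v h (Or.inl rfl))
  · intro J hJ
    rw [mem_filter] at hJ
    exact insert_erase hJ.2
  · intro I _
    rfl

/-- `∑` over independent sets avoiding the closed neighbourhood of `v` -/
noncomputable def Q (v : V) : ℝ := ∑ I ∈ (indep G).filter (fun I => cn G v I = ∅), t ^ I.card

/-- the partition function -/
noncomputable def Z : ℝ := ∑ I ∈ indep G, t ^ I.card

lemma Z_pos (ht : 0 < t) : 0 < Z G t := by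
  refine Finset.sum_pos (fun I _ => pow_pos ht _) ⟨∅, ?_⟩
  rw [mem_indep']; simp

lemma sum_card_eq : ∑ I ∈ indep G, ((I.card : ℕ) : ℝ) * t ^ I.card = ∑ v, t * Q G t v := by
  have h1 : ∀ v, t * Q G t v = ∑ J ∈ indep G, if v ∈ J then t ^ J.card else 0 := by
    intro v
    rw [← Finset.sum_filter, sum_insert_bij, Q, mul_sum]
    refine sum_congr rfl ?_
    intro I hI
    rw [mem_filter, cn_eq_empty] at hI
    rw [card_insert_of_notMem (fun h => hI.2 v h (Or.inl rfl)), pow_succ, mul_comm]
  simp_rw [h1]
  rw [sum_comm]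
  refine sum_congr rfl ?_
  intro I _
  rw [← Finset.sum_filter]
  simp

/-- the sets meeting the closed neighbourhood of `b` in exactly one vertex -/
lemma sum_one (b : V) :
    ∑ I ∈ (indep G).filter (fun I => (cn G b I).card = 1), t ^ I.card =
      ∑ u ∈ (univ : Finset V).filter (fun u => u = b ∨ G.Adj b u),
        t * ∑ I ∈ (indep G).filter (fun I => cn G b I = ∅ ∧ cn G u I = ∅), t ^ I.card := by
  have h1 : ∑ I ∈ (indep G).filter (fun I => (cn G b I).card = 1), t ^ I.card =
      ∑ u ∈ (univ : Finset V).filter (fun u => u = b ∨ G.Adj b u),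
        ∑ I ∈ indep G, if cn G b I = {u} then t ^ I.card else 0 := by
    rw [sum_comm, Finset.sum_filter]
    refine sum_congr rfl ?_
    intro I _
    split_ifs with h
    · obtain ⟨u, hu⟩ := card_eq_one.1 h
      rw [Finset.sum_eq_single u]
      · rw [if_pos hu]
      · intro v _ hv
        rw [if_neg]
        rw [hu]
        intro h'
        exact hv (singleton_injective h').symm
      · intro h'
        exfalso
        apply h'
        rw [mem_filter]
        have : u ∈ cn G b I := by rw [hu]; exact mem_singleton_self u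
        exact ⟨mem_univ _, ((mem_cn G).1 this).2⟩
    · symm
      apply Finset.sum_eq_zero
      intro u _
      rw [if_neg]
      intro h'
      rw [h'] at h
      exact h (card_singleton u)
  rw [h1]
  refine sum_congr rfl ?_
  intro u hu
  rw [mem_filter] at hu
  have h2 : ∑ I ∈ indep G, (if cn G b I = {u} then t ^ I.card else 0) =
      ∑ I ∈ (indep G).filter (fun J => u ∈ J), (if cn G b I = {u} then t ^ I.card else 0) := by
    rw [Finset.sum_filter]
    refine sum_congr rfl ?_
    intro I _
    by_cases hI : u ∈ I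
    · rw [if_pos hI]
    · rw [if_neg hI, if_neg]
      intro h'
      have : u ∈ cn G b I := by rw [h']; exact mem_singleton_self u
      exact hI ((mem_cn G).1 this).1
  rw [h2, sum_insert_bij]
  rw [← Finset.filter_filter, Finset.filter_comm, Finset.sum_filter (s := (indep G).filter _)
    (p := fun I => cn G b I = ∅), mul_sum]
  refine sum_congr rfl ?_
  intro I hI
  rw [mem_filter, cn_eq_empty] at hI
  have hu' : u ∉ I := fun h => hI.2 u h (Or.inl rfl)
  have h3 : cn G b (insert u I) = insert u (cn G b I) := by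
    unfold cn
    rw [filter_insert, if_pos hu.2]
  have h4 : cn G b (insert u I) = {u} ↔ cn G b I = ∅ := by
    rw [h3]
    constructor
    · intro h
      rw [eq_empty_iff_forall_notMem]
      intro a ha
      have h5 : a ∈ ({u} : Finset V) := by rw [← h]; exact mem_insert_of_mem ha
      rw [mem_singleton] at h5
      rw [h5] at ha
      exact hu' ((mem_cn G).1 ha).1
    · intro h
      rw [h]
      rfl
  by_cases h : cn G b I = ∅
  · rw [if_pos (h4.2 h), if_pos h, card_insert_of_notMem hu', pow_succ, mul_comm]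
  · rw [if_neg (fun h' => h (h4.1 h')), if_neg h, mul_zero]

/-- the weight of the independent sets containing `b` and having at least two vertices in the
closed neighbourhood of `u` -/
lemma sum_two (b u : V) (hbu : G.Adj b u) :
    t * ∑ I ∈ (indep G).filter (fun I => cn G b I = ∅ ∧ cn G u I = ∅), t ^ I.card =
      t * Q G t b -
        ∑ I ∈ (indep G).filter (fun I => 2 ≤ (cn G u I).card), if b ∈ I then t ^ I.card else 0 := by
  have h1 : ∑ I ∈ (indep G).filter (fun I => 2 ≤ (cn G u I).card),
      (if b ∈ I then t ^ I.card else 0) =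
      ∑ I ∈ (indep G).filter (fun J => b ∈ J), (if 2 ≤ (cn G u I).card then t ^ I.card else 0) := by
    rw [← Finset.sum_filter, ← Finset.sum_filter, Finset.filter_comm]
  rw [h1, sum_insert_bij]
  have h2 : ∑ I ∈ (indep G).filter (fun I => cn G b I = ∅),
      (if 2 ≤ (cn G u (insert b I)).card then t ^ (insert b I).card else 0) =
      ∑ I ∈ (indep G).filter (fun I => cn G b I = ∅),
        t * (if ¬ cn G u I = ∅ then t ^ I.card else 0) := by
    refine sum_congr rfl ?_
    intro I hI
    rw [mem_filter, cn_eq_empty] at hI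
    have hb' : b ∉ I := fun h => hI.2 b h (Or.inl rfl)
    have h3 : cn G u (insert b I) = insert b (cn G u I) := by
      unfold cn
      rw [filter_insert, if_pos (Or.inr hbu.symm)]
    have hb'' : b ∉ cn G u I := fun h => hb' ((mem_cn G).1 h).1
    rw [h3, card_insert_of_notMem hb'', card_insert_of_notMem hb']
    by_cases h : cn G u I = ∅
    · rw [if_neg, if_neg, mul_zero]
      · exact not_not.2 h
      · rw [h]; simp
    · rw [if_pos, if_pos h, pow_succ, mul_comm]
      have := card_pos.2 (nonempty_iff_ne_empty.2 h)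
      omega
  rw [h2, ← mul_sum, Q, ← mul_sub]
  congr 1
  rw [← Finset.sum_filter, Finset.filter_filter, eq_sub_iff_add_eq, ← Finset.sum_union]
  · congr 1
    ext I
    simp only [mem_union, mem_filter]
    tauto
  · rw [disjoint_left]
    intro I h3 h4
    rw [mem_filter] at h3 h4
    exact h4.2.2 h3.2.2

/-- the local balance equation at `b` -/
lemma balance (b : V) :
    Q G t b * (1 + ((G.degree b : ℝ) + 1) * t) = Z G t +
      ∑ u ∈ G.neighborFinset b,
        ∑ I ∈ (indep G).filter (fun I => 2 ≤ (cn G u I).card), (if b ∈ I then t ^ I.card else 0)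
      - ∑ I ∈ (indep G).filter (fun I => 2 ≤ (cn G b I).card), t ^ I.card := by
  have h1 : Z G t = Q G t b +
      ∑ I ∈ (indep G).filter (fun I => (cn G b I).card = 1), t ^ I.card +
      ∑ I ∈ (indep G).filter (fun I => 2 ≤ (cn G b I).card), t ^ I.card := by
    unfold Z Q
    rw [← Finset.sum_union, ← Finset.sum_union]
    · congr 1
      ext I
      simp only [mem_union, mem_filter]
      constructor
      · intro h
        rcases Nat.lt_or_ge (cn G b I).card 1 with h2 | h2
        · left; left
          exact ⟨h, card_eq_zero.1 (by omega)⟩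
        · rcases Nat.lt_or_ge (cn G b I).card 2 with h3 | h3
          · left; right; exact ⟨h, by omega⟩
          · right; exact ⟨h, h3⟩
      · rintro ((h | h) | h) <;> exact h.1
    · rw [disjoint_left]
      intro I h3 h4
      rw [mem_union, mem_filter, mem_filter] at h3
      rw [mem_filter] at h4
      rcases h3 with h3 | h3
      · rw [h3.2] at h4; simp at h4
      · omega
    · rw [disjoint_left]
      intro I h3 h4
      rw [mem_filter] at h3 h4
      rw [h3.2] at h4; simp at h4
  have h2 : (univ : Finset V).filter (fun u => u = b ∨ G.Adj b u) =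
      insert b (G.neighborFinset b) := by
    ext u
    simp
  have h3 : b ∉ G.neighborFinset b := by simp
  have h4 := sum_one G t b
  rw [h2, sum_insert h3] at h4
  have h5 : ∑ u ∈ G.neighborFinset b,
      t * ∑ I ∈ (indep G).filter (fun I => cn G b I = ∅ ∧ cn G u I = ∅), t ^ I.card =
      ∑ u ∈ G.neighborFinset b, (t * Q G t b -
        ∑ I ∈ (indep G).filter (fun I => 2 ≤ (cn G u I).card),
          if b ∈ I then t ^ I.card else 0) := by
    refine sum_congr rfl ?_
    intro u hu
    rw [SimpleGraph.mem_neighborFinset] at hu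
    exact sum_two G t b u hu
  rw [h5, sum_sub_distrib, sum_const, SimpleGraph.card_neighborFinset_eq_degree, nsmul_eq_mul] at h4
  have h6 : ∑ I ∈ (indep G).filter (fun I => cn G b I = ∅ ∧ cn G b I = ∅), t ^ I.card = Q G t b := by
    simp only [and_self, Q]
  rw [h6] at h4
  linarith [h1, h4]

/-- the exact identity -/
lemma identity (ht : 0 < t) :
    ∑ I ∈ indep G, ((I.card : ℕ) : ℝ) * t ^ I.card -
      Z G t * ∑ v, t / (1 + ((G.degree v : ℝ) + 1) * t) =
    ∑ b, t * ∑ I ∈ (indep G).filter (fun I => 2 ≤ (cn G b I).card),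
      t ^ I.card * (∑ c ∈ cn G b I, 1 / (1 + ((G.degree c : ℝ) + 1) * t)
        - 1 / (1 + ((G.degree b : ℝ) + 1) * t)) := by
  have hpos : ∀ v, 0 < 1 + ((G.degree v : ℝ) + 1) * t := by
    intro v; positivity
  have h1 : ∀ b, t * Q G t b - Z G t * (t / (1 + ((G.degree b : ℝ) + 1) * t)) =
      t * (1 / (1 + ((G.degree b : ℝ) + 1) * t)) * (∑ u ∈ G.neighborFinset b,
        ∑ I ∈ (indep G).filter (fun I => 2 ≤ (cn G u I).card), (if b ∈ I then t ^ I.card else 0))
      - t * (1 / (1 + ((G.degree b : ℝ) + 1) * t)) *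
        ∑ I ∈ (indep G).filter (fun I => 2 ≤ (cn G b I).card), t ^ I.card := by
    intro b
    have h := balance G t b
    have h' : Q G t b = (1 / (1 + ((G.degree b : ℝ) + 1) * t)) * (Z G t +
      ∑ u ∈ G.neighborFinset b,
        ∑ I ∈ (indep G).filter (fun I => 2 ≤ (cn G u I).card), (if b ∈ I then t ^ I.card else 0)
      - ∑ I ∈ (indep G).filter (fun I => 2 ≤ (cn G b I).card), t ^ I.card) := by
      rw [← h]
      have := (hpos b).ne'
      field_simp
    rw [h']
    ring
  rw [sum_card_eq, mul_sum, ← sum_sub_distrib]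
  simp_rw [h1]
  rw [sum_sub_distrib]
  have h2 : ∑ b, t * ∑ I ∈ (indep G).filter (fun I => 2 ≤ (cn G b I).card),
      t ^ I.card * (∑ c ∈ cn G b I, 1 / (1 + ((G.degree c : ℝ) + 1) * t)
        - 1 / (1 + ((G.degree b : ℝ) + 1) * t)) =
      ∑ b, t * ∑ I ∈ (indep G).filter (fun I => 2 ≤ (cn G b I).card),
        t ^ I.card * (∑ c ∈ cn G b I, 1 / (1 + ((G.degree c : ℝ) + 1) * t)) -
      ∑ b, t * (1 / (1 + ((G.degree b : ℝ) + 1) * t)) *
        ∑ I ∈ (indep G).filter (fun I => 2 ≤ (cn G b I).card), t ^ I.card := by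
    rw [← sum_sub_distrib]
    refine sum_congr rfl ?_
    intro b _
    rw [mul_assoc, ← mul_sub]
    congr 1
    rw [mul_sum, ← sum_sub_distrib]
    refine sum_congr rfl ?_
    intro I _
    ring
  rw [h2]
  congr 1
  -- exchange the order of summation
  have h3 : ∀ b, t * (1 / (1 + ((G.degree b : ℝ) + 1) * t)) * (∑ u ∈ G.neighborFinset b,
        ∑ I ∈ (indep G).filter (fun I => 2 ≤ (cn G u I).card), (if b ∈ I then t ^ I.card else 0)) =
      ∑ u, ∑ I ∈ (indep G).filter (fun I => 2 ≤ (cn G u I).card),
        (if b ∈ I ∧ G.Adj b u then t * (1 / (1 + ((G.degree b : ℝ) + 1) * t)) * t ^ I.card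
          else 0) := by
    intro b
    have h4 : G.neighborFinset b = univ.filter (fun u => G.Adj b u) := by
      ext u; simp
    rw [h4, Finset.sum_filter, mul_sum]
    refine sum_congr rfl ?_
    intro u _
    by_cases hbu : G.Adj b u
    · rw [if_pos hbu, mul_sum]
      refine sum_congr rfl ?_
      intro I _
      by_cases hI : b ∈ I
      · rw [if_pos hI, if_pos ⟨hI, hbu⟩]
      · rw [if_neg hI, if_neg (fun h => hI h.1), mul_zero]
    · rw [if_neg hbu, mul_zero]
      symm
      apply Finset.sum_eq_zero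
      intro I _
      rw [if_neg (fun h => hbu h.2)]
  simp_rw [h3]
  rw [sum_comm]
  refine sum_congr rfl ?_
  intro u _
  rw [sum_comm, mul_sum]
  refine sum_congr rfl ?_
  intro I hI
  rw [mem_filter, mem_indep'] at hI
  -- `u ∉ I`
  have hu : u ∉ I := by
    intro hu
    have h5 : cn G u I ⊆ {u} := by
      intro a ha
      rw [mem_cn] at ha
      rcases ha.2 with h | h
      · exact mem_singleton.2 h
      · exact absurd h (hI.1 u hu a ha.1)
    have := card_le_card h5
    rw [card_singleton] at this
    omega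
  rw [← Finset.sum_filter]
  have h6 : univ.filter (fun b => b ∈ I ∧ G.Adj b u) = cn G u I := by
    ext a
    rw [mem_cn, mem_filter]
    constructor
    · rintro ⟨_, h1, h2⟩
      exact ⟨h1, Or.inr h2.symm⟩
    · rintro ⟨h1, h2 | h2⟩
      · exact absurd (h2 ▸ h1) hu
      · exact ⟨mem_univ _, h1, h2.symm⟩
  rw [h6, mul_sum, mul_sum]
  refine sum_congr rfl ?_
  intro c _
  ring

/-- The inequality under the cherry condition. -/
lemma cherry (ht : 0 < t)
    (h : ∀ a b c : V, G.Adj b a → G.Adj b c → a ≠ c → ¬ G.Adj a c →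
      1 / (1 + ((G.degree b : ℝ) + 1) * t) ≤
        1 / (1 + ((G.degree a : ℝ) + 1) * t) + 1 / (1 + ((G.degree c : ℝ) + 1) * t)) :
    CaroWeiHardCore G t := by
  unfold CaroWeiHardCore
  change _ ≤ (∑ I ∈ indep G, ((Finset.card I : ℕ) : ℝ) * t ^ (Finset.card I)) / (Z G t)
  rw [le_div_iff₀ (Z_pos G t ht), mul_comm, ← sub_nonneg, identity G t ht]
  refine sum_nonneg ?_
  intro b _
  refine mul_nonneg ht.le (sum_nonneg ?_)
  intro I hI
  refine mul_nonneg (pow_nonneg ht.le _) ?_
  rw [mem_filter, mem_indep'] at hI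
  obtain ⟨a, c, ha, hc, hac⟩ := Finset.one_lt_card_iff.1 (lt_of_lt_of_le one_lt_two hI.2)
  have hadj : ∀ u v, u ∈ cn G b I → v ∈ cn G b I → u ≠ v → G.Adj b u := by
    intro u v hu hv huv
    rw [mem_cn] at hu hv
    rcases hu.2 with h1 | h1
    · rcases hv.2 with h2 | h2
      · exact absurd (h1.trans h2.symm) huv
      · rw [← h1] at h2
        exact absurd h2 (hI.1 u hu.1 v hv.1)
    · exact h1
  have h1 := h a b c (hadj a c ha hc hac) (hadj c a hc ha hac.symm) hac
    (hI.1 a ((mem_cn G).1 ha).1 c ((mem_cn G).1 hc).1)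
  have h2 : ∑ c ∈ ({a, c} : Finset V), 1 / (1 + ((G.degree c : ℝ) + 1) * t) ≤
      ∑ c ∈ cn G b I, 1 / (1 + ((G.degree c : ℝ) + 1) * t) := by
    refine sum_le_sum_of_subset_of_nonneg ?_ ?_
    · intro x hx
      rw [mem_insert, mem_singleton] at hx
      rcases hx with rfl | rfl
      · exact ha
      · exact hc
    · intro i _ _
      positivity
  rw [sum_pair hac] at h2
  linarith

/-- The inequality of Q1 holds for a finite graph `G` at fugacity `t > 0`

* if `g a + g c ≥ g b` for all induced paths `a - b - c`, where `g v = 1 / (1 + (deg v + 1) t)`;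
* if `(deg a - 2 deg b - 1) t ≤ 1` for every edge `a b` with `deg b ≥ 2`;
* if `deg a ≤ 2 deg b + 1` for every edge `a b` with `deg b ≥ 2`;
* if every degree is at most `5`;
* if every degree is at most `D` and `(D - 5) t ≤ 1`. -/
theorem result {V : Type u} [Fintype V] (G : SimpleGraph V) (t : ℝ) (ht : 0 < t) :
    ((∀ a b c : V, G.Adj b a → G.Adj b c → a ≠ c → ¬ G.Adj a c →
      1 / (1 + ((G.degree b : ℝ) + 1) * t) ≤
        1 / (1 + ((G.degree a : ℝ) + 1) * t) + 1 / (1 + ((G.degree c : ℝ) + 1) * t)) →
      CaroWeiHardCore G t) ∧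
    ((∀ a b : V, G.Adj a b → 2 ≤ G.degree b →
      ((G.degree a : ℝ) - 2 * (G.degree b : ℝ) - 1) * t ≤ 1) → CaroWeiHardCore G t) ∧
    ((∀ a b : V, G.Adj a b → 2 ≤ G.degree b → G.degree a ≤ 2 * G.degree b + 1) →
      CaroWeiHardCore G t) ∧
    ((∀ v : V, G.degree v ≤ 5) → CaroWeiHardCore G t) ∧
    (∀ D : ℕ, (∀ v : V, G.degree v ≤ D) → ((D : ℝ) - 5) * t ≤ 1 → CaroWeiHardCore G t) := by
  have h2 : (∀ a b : V, G.Adj a b → 2 ≤ G.degree b →
      ((G.degree a : ℝ) - 2 * (G.degree b : ℝ) - 1) * t ≤ 1) → CaroWeiHardCore G t := by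
    intro h
    refine cherry G t ht ?_
    intro a b c hba hbc hac _
    have hb : 2 ≤ G.degree b := by
      rw [← SimpleGraph.card_neighborFinset_eq_degree]
      have h3 : ({a, c} : Finset V) ⊆ G.neighborFinset b := by
        intro x hx
        rw [mem_insert, mem_singleton] at hx
        rw [SimpleGraph.mem_neighborFinset]
        rcases hx with rfl | rfl
        · exact hba
        · exact hbc
      have := card_le_card h3
      rwa [card_pair hac] at this
    have key : ∀ x : V, G.Adj b x →
        1 / (1 + ((G.degree b : ℝ) + 1) * t) / 2 ≤ 1 / (1 + ((G.degree x : ℝ) + 1) * t) := by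
      intro x hx
      have h4 := h x b hx.symm hb
      rw [div_div]
      apply one_div_le_one_div_of_le
      · positivity
      · nlinarith
    have h5 := key a hba
    have h6 := key c hbc
    linarith
  have h3 : (∀ a b : V, G.Adj a b → 2 ≤ G.degree b → G.degree a ≤ 2 * G.degree b + 1) →
      CaroWeiHardCore G t := by
    intro h
    refine h2 ?_
    intro a b hab hb
    have h4 : (G.degree a : ℝ) ≤ 2 * (G.degree b : ℝ) + 1 := by
      exact_mod_cast h a b hab hb
    nlinarith
  refine ⟨fun h => cherry G t ht h, h2, h3, ?_, ?_⟩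
  · intro h
    refine h3 ?_
    intro a b _ hb
    have := h a
    omega
  · intro D hD h
    refine h2 ?_
    intro a b _ hb
    have h4 : (G.degree a : ℝ) ≤ D := by exact_mod_cast hD a
    have h5 : (2 : ℝ) ≤ G.degree b := by exact_mod_cast hb
    nlinarith

end Pool.Agent.Results.MP_dc9350_co.CherryCondition
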